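import Mathlib
import Pool.Agent.H10.Disc5

set_option autoImplicit false
open Classical

namespace Pool.Agent.Results.MP_e1a649_nt.AllDimensions

/-- The star discrepancy of order `p` of a family of `N` points in dimension `d`. -/
noncomputable def starDisc (p : ℝ) (d N : ℕ) (P : Fin N → Fin d → ℝ) : ℝ :=
  (∫ t in Set.Icc (0 : Fin d → ℝ) 1,
    |((Finset.univ.filter (fun i : Fin N => ∀ j : Fin d, P i j < t j)).card : ℝ)
      - (N : ℝ) * ∏ j : Fin d, t j| ^ p) ^ (1 / p)

/-- The periodic discrepancy of order `p` of a family of `N` points in dimension `d`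
(test sets: boxes on the torus, written with wrap-around intervals). -/
noncomputable def perDisc (p : ℝ) (d N : ℕ) (P : Fin N → Fin d → ℝ) : ℝ :=
  (∫ x in Set.Icc (0 : Fin d → ℝ) 1, ∫ y in Set.Icc (0 : Fin d → ℝ) 1,
    |((Finset.univ.filter (fun i : Fin N => ∀ j : Fin d,
          if x j ≤ y j then (x j ≤ P i j ∧ P i j < y j)
          else (P i j < y j ∨ x j ≤ P i j))).card : ℝ)
      - (N : ℝ) * ∏ j : Fin d, (if x j ≤ y j then y j - x j else 1 - x j + y j)| ^ p) ^ (1 / p)

/-- The bound `perDisc ≤ C * starDisc` holds in dimension one (with `C = 2`) and fails in every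
dimension `d ≥ 2`, for every `p ≥ 1`, already among point sets (pairwise distinct points). -/
theorem result :
    ∀ p : ℝ, 1 ≤ p →
      (∀ N : ℕ, ∀ P : Fin N → Fin 1 → ℝ, perDisc p 1 N P ≤ 2 * starDisc p 1 N P) ∧
      (∀ d : ℕ, 2 ≤ d → ∀ C : ℝ, ∃ N : ℕ, ∃ P : Fin N → Fin d → ℝ,
        Function.Injective P ∧ (∀ i j, 0 ≤ P i j ∧ P i j < 1) ∧
          C * starDisc p d N P < perDisc p d N P) := by
  intro p hp
  refine ⟨fun N P => Pool.Agent.H10.Disc.dim_one p hp N P, ?_⟩
  intro d hd C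
  obtain ⟨e, rfl⟩ : ∃ e, d = e + 2 := ⟨d - 2, by omega⟩
  obtain ⟨N, P, h1, h2, h3⟩ := Pool.Agent.H10.Disc.unbounded p hp e (max C 1) (by positivity)
  refine ⟨N, P, h1, h2, lt_of_le_of_lt ?_ h3⟩
  apply mul_le_mul_of_nonneg_right (le_max_left _ _)
  apply Real.rpow_nonneg
  exact MeasureTheory.integral_nonneg fun t => Real.rpow_nonneg (abs_nonneg _) _

end Pool.Agent.Results.MP_e1a649_nt.AllDimensions
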